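import Pool.Agent.Q206.Unc.GenFinal

/-!
# The indicator of an interval is not an extremizer of the `L^∞` uncertainty inequality

For every `α > 0` the functional `Φ_α` takes at some nowhere vanishing integrable function on
`[-1/2, 1/2]` a value smaller than at the indicator function of `[-1/2, 1/2]`.
-/

open MeasureTheory

namespace Pool.Agent.Results.MP_d6da6d_an.IndicatorNotExtremal

open Pool.Agent.Q206.Unc

/-- **Theorem** (negative answer to Q1 and to Q2, for every `α ≥ 2`). For every real `α > 0` there is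
an integrable function `w : ℝ → ℝ`, zero outside `[-1/2, 1/2]` and nowhere zero on `[-1/2, 1/2]`, with
`Φ_α(w) < Φ_α(χ)`, where `χ` is the indicator function of `[-1/2, 1/2]`. -/
theorem result (α : ℝ) (hα : 0 < α) : ∃ w : ℝ → ℝ, Integrable w ∧
    (∀ x ∈ Set.Icc (-1 / 2 : ℝ) (1 / 2), w x ≠ 0) ∧
    (∀ x, x ∉ Set.Icc (-1 / 2 : ℝ) (1 / 2) → w x = 0) ∧
    Phi α (fun x : ℝ => (w x : ℂ)) < Phi α chi :=
  main_general hα

end Pool.Agent.Results.MP_d6da6d_an.IndicatorNotExtremal
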